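import Pool.Agent.MP_d9582c_gt.H34.Stmts4

/-!
Multiplication, wedge and cut-and-move operators on `L²` forms.
-/

open scoped Manifold ContDiff Topology ENNReal Pointwise InnerProductSpace
open MeasureTheory Set Filter ContinuousLinearMap UniformSpace

noncomputable section

namespace Pool.Agent.MP_d9582c_gt.H63

open H34

universe u v

section Abstract

variable {P K Q : Type*} [SeminormedAddCommGroup P] [NormedSpace ℂ P] [NormedAddCommGroup K]
  [NormedSpace ℂ K]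

lemma parseval_ext (T : Q → Completion P →L[ℂ] K)
    (h : ∀ η : P, ∑' q, ‖T q η‖ₑ ^ 2 = ‖(η : Completion P)‖ₑ ^ 2) (u : Completion P) :
    ∑' q, ‖T q u‖ₑ ^ 2 = ‖u‖ₑ ^ 2 := by
  have h1 : ∀ (s : Finset Q) (u : Completion P), ∑ q ∈ s, ‖T q u‖ ^ 2 ≤ ‖u‖ ^ 2 := fun s u => by
    refine Completion.induction_on u (isClosed_le (by fun_prop) (by fun_prop)) fun η => ?_
    have := (ENNReal.sum_le_tsum s).trans (h η).le
    simp only [enorm_sq_eq] at this
    rwa [← ENNReal.ofReal_sum_of_nonneg fun _ _ => sq_nonneg _,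
      ENNReal.ofReal_le_ofReal_iff (sq_nonneg _)] at this
  let Ψ₀ : Completion P →ₗ[ℂ] lp (fun _ : Q => K) 2 :=
    { toFun := fun u => ⟨fun q => T q u, memℓp_gen' (C := ‖u‖ ^ 2) fun s => by
        simpa using h1 s u⟩
      map_add' := fun u v => lp.ext (funext fun q => (T q).map_add u v)
      map_smul' := fun c u => lp.ext (funext fun q => (T q).map_smul c u) }
  have h2 : ∀ u, ‖Ψ₀ u‖ ≤ 1 * ‖u‖ := fun u =>
    lp.norm_le_of_forall_sum_le (by simp) (by positivity) fun s => by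
      simp only [ENNReal.toReal_ofNat, Real.rpow_ofNat, one_mul]; exact h1 s u
  have h3 : ∀ u, ∑' q, ‖T q u‖ₑ ^ 2 = ‖Ψ₀.mkContinuous 1 h2 u‖ₑ ^ 2 := fun u => by
    have h := lp.hasSum_norm (p := 2) (by simp) (Ψ₀ u)
    simp only [ENNReal.toReal_ofNat, Real.rpow_ofNat] at h
    simp only [enorm_sq_eq]
    rw [LinearMap.mkContinuous_apply, ← h.tsum_eq,
      ENNReal.ofReal_tsum_of_nonneg (fun _ => sq_nonneg _) h.summable]
    rfl
  rw [h3]
  refine Completion.induction_on u (isClosed_eq (by fun_prop) (by fun_prop)) fun η => ?_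
  rw [← h3, h]

end Abstract

variable {n p p' : ℕ} {M : Type u} [TopologicalSpace M] [ChartedSpace (E n) M]
  {G : Type v} [Group G] [MulAction G M] [IsManifold 𝓘(ℝ, E n) ∞ M] [MeasurableSpace M]
  [BorelSpace M] {X : Geo n G M}

lemma adjoint_clm {D D' : FD X} {c c' : ℝ} (A : Op D p D' p' c) (B : Op D' p' D p c')
    (h : ∀ η ξ, ⟪B.pre ξ, η⟫_ℂ = ⟪ξ, A.pre η⟫_ℂ) : adjoint A.clm = B.clm := by
  refine ((eq_adjoint_iff _ _).2 fun x y => ?_).symm
  refine Completion.induction_on₂ x y (isClosed_eq (by fun_prop) (by fun_prop)) fun ξ η => ?_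
  rw [Op.clm_coe, Op.clm_coe, Completion.inner_coe, Completion.inner_coe, h]

omit [IsManifold 𝓘(ℝ, E n) ∞ M] [MeasurableSpace M] [BorelSpace M] in
lemma tr_fun_smul (γ : G) (c : M → ℝ) (η : M → Alt n p) (x : M) :
    tr γ (fun y => c y • η y) x = c (γ⁻¹ • x) • tr γ η x := rfl

/-- Multiplication by a bounded invariant function. -/
def mulOp (D : FD X) (p : ℕ) (χ : M → ℝ) (c : ℝ) (hs : ContMDiff 𝓘(ℝ, E n) 𝓘(ℝ, ℝ) ∞ χ)
    (hi : ∀ γ ∈ D.N, ∀ x, χ (γ • x) = χ x) (hc : 0 ≤ c) (hb : ∀ x, |χ x| ≤ c) : Op D p D p c where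
  T :=
    { toFun := fun η y => χ y • η.1 y
      map_add' := fun η ξ => funext fun y => smul_add (χ y) (η.1 y) (ξ.1 y)
      map_smul' := fun a η => funext fun y => smul_comm (χ y) a (η.1 y) }
  c_nonneg := hc
  smooth η x := (η.smooth x).fun_smul (hs x)
  inv η γ hγ := funext fun x => by
    change tr γ (fun y => χ y • η.1 y) x = χ x • η.1 x
    rw [tr_fun_smul, hi _ (D.N.inv_mem hγ), η.inv γ hγ]
  bound η := FD.nrm_mono (sq_nonneg c) fun x => by
    change nsq X.g x (χ x • η.1 x) ≤ _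
    rw [nsq_rsmul]
    exact mul_le_mul_of_nonneg_right (sq_le_sq' (neg_le_of_abs_le (hb x)) (le_of_abs_le (hb x)))
      (nsq_nonneg _ _ _)

@[simp] lemma mulOp_T (D : FD X) (χ : M → ℝ) (c : ℝ) (hs hi hc hb) (η : D.P p) :
    (mulOp D p χ c hs hi hc hb).T η = fun y => χ y • η.1 y := rfl

lemma mulOp_sa (D : FD X) (χ : M → ℝ) (c : ℝ) (hs hi hc hb) :
    IsSelfAdjoint (mulOp D p χ c hs hi hc hb).clm :=
  adjoint_clm _ _ fun η ξ => by
    simp only [FD.P.inner_eq, Op.pre_val, mulOp_T, ip_rsmul_left, ip_rsmul_right]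

variable (X) in
/-- The constant for wedge products. -/
def κ : ℝ := √(cW n * (4 * X.cφ))

omit [BorelSpace M] in
lemma κ_nonneg : 0 ≤ κ X := Real.sqrt_nonneg _

omit [BorelSpace M] in
lemma κ_sq : κ X ^ 2 = cW n * (4 * X.cφ) :=
  Real.sq_sqrt (mul_nonneg (cW_nonneg n) (mul_nonneg (by norm_num) X.cφ_nonneg))

omit [BorelSpace M] in
lemma nsq_wedge_κ {x : M} {ξ : E n →L[ℝ] ℝ} {c : ℝ}
    (h : ∀ v, ξ v ^ 2 ≤ c ^ 2 * (4 * X.cφ) * gx X.g x v v) (α : Alt n p) :
    nsq X.g x (wedge ξ α) ≤ (c * κ X) ^ 2 * nsq X.g x α := by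
  have := X.cφ_nonneg
  refine (nsq_wedge_le' X.g x (by positivity) h α).trans (le_of_eq ?_)
  rw [mul_pow, κ_sq]; ring

/-- Wedge product with the differential of an invariant function. -/
def wedgeOp (D : FD X) (p : ℕ) (χ : M → ℝ) (c : ℝ) (hs : ContMDiff 𝓘(ℝ, E n) 𝓘(ℝ, ℝ) ∞ χ)
    (hi : ∀ γ ∈ D.N, ∀ x, χ (γ • x) = χ x) (hc : 0 ≤ c)
    (hb : ∀ x v, dfun n χ x v ^ 2 ≤ c ^ 2 * (4 * X.cφ) * gx X.g x v v) :
    Op D p D (p + 1) (c * κ X) where
  T :=
    { toFun := fun η y => wedge (dfun n χ y) (η.1 y)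
      map_add' := fun η ξ => funext fun y => wedge_add_right _ (η.1 y) (ξ.1 y)
      map_smul' := fun a η => funext fun y => wedge_smul_right _ a (η.1 y) }
  c_nonneg := mul_nonneg hc κ_nonneg
  smooth η x := smoothAt_wedge (Eventually.of_forall hs) (Eventually.of_forall η.smooth)
  inv η γ hγ := funext fun x => by
    change tr γ (fun y => wedge (dfun n χ y) (η.1 y)) x = wedge (dfun n χ x) (η.1 x)
    rw [X.tr_wedge γ _ ((hs _).mdifferentiableAt (by simp)), funext (hi _ (D.N.inv_mem hγ)),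
      η.inv γ hγ]
  bound η := FD.nrm_mono (sq_nonneg _) fun x => nsq_wedge_κ (hb x) _

@[simp] lemma wedgeOp_T (D : FD X) (χ : M → ℝ) (c : ℝ) (hs hi hc hb) (η : D.P p) :
    (wedgeOp D p χ c hs hi hc hb).T η = fun y => wedge (dfun n χ y) (η.1 y) := rfl

open Classical in
/-- The translate of `η` that moves the sheet `g` to the sheet `g'`, if it is allowed. -/
def sel (N : Subgroup G) (g : G) (η : M → Alt n p) (g' : G) : M → Alt n p :=
  if g' * g⁻¹ ∈ N then tr (g' * g⁻¹) η else 0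

section Sel

omit [IsManifold 𝓘(ℝ, E n) ∞ M] [MeasurableSpace M] [BorelSpace M]

variable {N : Subgroup G} {g g' : G} {η ξ : M → Alt n p}

lemma sel_pos (h : g' * g⁻¹ ∈ N) : sel N g η g' = tr (g' * g⁻¹) η := if_pos h

lemma sel_neg (h : g' * g⁻¹ ∉ N) : sel N g η g' = 0 := if_neg h

lemma sel_self : sel N g η g = η := by
  rw [sel_pos (by simp), mul_inv_cancel, tr_one]

lemma sel_add : sel N g (η + ξ) g' = sel N g η g' + sel N g ξ g' := by
  unfold sel; split_ifs
  · rfl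
  · exact (add_zero _).symm

lemma sel_smul (c : ℂ) : sel N g (c • η) g' = c • sel N g η g' := by
  unfold sel; split_ifs
  · rfl
  · exact (smul_zero (A := M → Alt n p) c).symm

end Sel

omit [BorelSpace M] in
include X in
lemma smoothAt_sel {N : Subgroup G} {g g' : G} {η : M → Alt n p} (h : ∀ x, SmoothAt η x) (x : M) :
    SmoothAt (sel N g η g') x ∧ extD (sel N g η g') x = sel N g (extD η) g' x := by
  unfold sel; split_ifs
  · exact ⟨X.smoothAt_tr _ (h _), X.extD_tr _ (h _)⟩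
  · exact ⟨smoothAt_zero x, extD_zero x⟩

omit [BorelSpace M] in
include X in
lemma tr_sel {N : Subgroup G} {g g' ν : G} {η : M → Alt n p} (hν : ν ∈ N) :
    tr ν (sel N g η (ν⁻¹ * g')) = sel N g η g' := by
  by_cases h : g' * g⁻¹ ∈ N
  · rw [sel_pos h, sel_pos (by rw [mul_assoc]; exact N.mul_mem (N.inv_mem hν) h), ← X.tr_mul,
      mul_assoc, mul_inv_cancel_left]
  · rw [sel_neg h, sel_neg fun h' => h (by simpa [mul_assoc] using N.mul_mem hν h')]; rfl

variable (X) in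
/-- A cutoff function for the saturation of `U b`. -/
structure Cut (b : Fin X.m) (c : M → ℝ) : Prop where
  smooth : ContMDiff 𝓘(ℝ, E n) 𝓘(ℝ, ℝ) ∞ c
  inv : ∀ (γ : G) x, c (γ • x) = c x
  le : ∀ x, c x ^ 2 ≤ 1
  ev : ∀ x ∉ X.V b, c =ᶠ[𝓝 x] 0

omit [BorelSpace M] in
lemma cut₁ (b : Fin X.m) : Cut X b (X.φ b) :=
  ⟨X.smooth b, X.inv b, Geo.φ_sq_le b, fun _ => Geo.φ_eventually⟩

omit [BorelSpace M] in
lemma cut₂ (b : Fin X.m) : Cut X b fun x => X.φ b x ^ 2 :=
  ⟨Geo.smooth_φ_sq b, fun γ x => by rw [X.inv], fun x => pow_le_one₀ (sq_nonneg _)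
    (Geo.φ_sq_le b x), fun _ => Geo.φ_sq_eventually⟩

variable (X) in
/-- Cut a form off on the sheet `g` of `U b` and extend it invariantly. -/
def cutF (N : Subgroup G) (b : Fin X.m) (c : M → ℝ) (g : G) (η : M → Alt n p) (y : M) : Alt n p :=
  c y • sel N g η (X.idx b y) y

section CutF

variable {b : Fin X.m} {c : M → ℝ} (hc : Cut X b c) {g : G} {η : M → Alt n p} {x : M}

omit [BorelSpace M] in
lemma cutF_on {N : Subgroup G} (h : g⁻¹ • x ∈ X.U b) : cutF X N b c g η x = c x • η x := by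
  rw [cutF, Geo.idx_eq h, sel_self]

omit [BorelSpace M] in
lemma sheet_disj (N : Subgroup G) (b : Fin X.m) (g : G) :
    ∀ γ ∈ N, ∀ x ∈ {x : M | g⁻¹ • x ∈ X.U b}, γ • x ∈ {x : M | g⁻¹ • x ∈ X.U b} → γ = 1 :=
  fun γ _ x hx hx' => by
    have := X.disj b (g⁻¹ * γ * g) _ hx (by simpa [mul_smul] using hx')
    rw [← mul_inv_cancel_left g γ, ← mul_inv_cancel_right (g⁻¹ * γ) g, this]; simp

include hc

omit [BorelSpace M] in
lemma Cut.eq_zero (h : x ∉ X.V b) : c x = 0 := (hc.ev x h).eq_of_nhds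

omit [BorelSpace M] in
lemma cutF_off {N : Subgroup G} (h : ∀ γ ∈ N, γ • x ∉ {x : M | g⁻¹ • x ∈ X.U b}) :
    cutF X N b c g η x = 0 := by
  by_cases hx : x ∈ X.V b
  · rw [cutF, sel_neg fun h' => h _ (N.inv_mem h') ?_]
    · exact smul_zero (A := Alt n p) (c x)
    · simpa [mul_smul] using Geo.idx_spec hx
  · rw [cutF, hc.eq_zero hx, alt_zero_rsmul]

omit [BorelSpace M] in
lemma cutF_inv (D : FD X) : D.Inv (cutF X D.N b c g η) := fun γ hγ => funext fun x => by
  change c (γ⁻¹ • x) • tr γ (sel D.N g η (X.idx b (γ⁻¹ • x))) x = c x • _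
  by_cases hx : x ∈ X.V b
  · rw [hc.inv, Geo.idx_smul hx, tr_sel (X := X) hγ]
  · rw [hc.inv, hc.eq_zero hx, alt_zero_rsmul, alt_zero_rsmul]

omit [BorelSpace M] in
lemma cutF_smooth {N : Subgroup G} (h : ∀ x, SmoothAt η x) (x : M) :
    SmoothAt (cutF X N b c g η) x ∧ extD (cutF X N b c g η) x =
      cutF X N b c g (extD η) x + wedge (dfun n c x) (sel N g η (X.idx b x) x) := by
  have := Geo.glue_smooth (θ := sel N g η) hc.smooth (hc.ev x) fun _ => (smoothAt_sel (X := X) h x).1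
  rwa [(smoothAt_sel (X := X) h x).2] at this

variable [Countable G]

lemma nrm_cutF (D : FD X) : D.nrm (cutF X D.N b c g η) =
    ∫⁻ x in {x : M | g⁻¹ • x ∈ X.U b}, ENNReal.ofReal (c x ^ 2 * nsq X.g x (η x)) ∂X.μ := by
  have hm := (Geo.isOpen_tr g b).measurableSet
  rw [FD.nrm, X.lintegral_unfold D.fd hm (sheet_disj D.N b g)
    (fun γ hγ x => by rw [(cutF_inv hc D).nsq hγ]) fun x hx => by rw [cutF_off hc hx]; simp]
  exact setLIntegral_congr_fun hm fun x hx => by simp only [cutF_on hx, nsq_rsmul]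

lemma nrm_cutF_le (D D' : FD X) {ξ : M → Alt n p'} (hξ : D.Inv ξ) {k : ℝ} (hk : 0 ≤ k)
    (h : ∀ x, g⁻¹ • x ∈ X.U b → nsq X.g x (η x) ≤ k * nsq X.g x (ξ x)) :
    D'.nrm (cutF X D'.N b c g η) ≤ ENNReal.ofReal k * D.nrm ξ := by
  have hm := (Geo.isOpen_tr g b).measurableSet
  rw [nrm_cutF hc]
  refine le_trans ?_ (mul_le_mul_right (X.lintegral_le_fd D.fd hm (sheet_disj D.N b g)
    fun γ hγ x => by rw [hξ.nsq hγ]) _)
  rw [← lintegral_const_mul' _ _ ENNReal.ofReal_ne_top]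
  refine setLIntegral_mono' hm fun x hx => ?_
  rw [← ENNReal.ofReal_mul hk]
  exact ENNReal.ofReal_le_ofReal
    ((mul_le_of_le_one_left (nsq_nonneg _ _ _) (hc.le x)).trans (h x hx))

/-- The cut-and-move operator. -/
def cutOp (g : G) (D D' : FD X) (p : ℕ) : Op D p D' p 1 where
  T :=
    { toFun := fun η => cutF X D'.N b c g η.1
      map_add' := fun η ξ => funext fun y => by
        change c y • sel D'.N g (η.1 + ξ.1) _ y = _
        rw [sel_add]; exact smul_add _ _ _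
      map_smul' := fun a η => funext fun y => by
        change c y • sel D'.N g (a • η.1) _ y = _
        rw [sel_smul]; exact smul_comm (c y) a (sel D'.N g η.1 _ y) }
  c_nonneg := zero_le_one
  smooth η x := (cutF_smooth hc η.smooth x).1
  inv η := cutF_inv hc D'
  bound η := nrm_cutF_le hc D D' η.inv (sq_nonneg _) fun x _ => by simp

@[simp] lemma cutOp_T (D D' : FD X) (η : D.P p) :
    (cutOp hc g D D' p).T η = cutF X D'.N b c g η.1 := rfl

lemma adjoint_cutOp (D D' : FD X) :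
    adjoint (cutOp hc g D D' p).clm = (cutOp hc g D' D p).clm :=
  adjoint_clm _ _ fun η ξ => by
    have hm := (Geo.isOpen_tr g b).measurableSet
    simp only [FD.P.inner_eq, Op.pre_val, cutOp_T]
    rw [X.integral_unfold D.fd hm (sheet_disj D.N b g)
      (fun γ hγ x => (cutF_inv hc D).ip η.inv hγ x) (fun x hx => by rw [cutF_off hc hx]; simp),
      X.integral_unfold D'.fd hm (sheet_disj D'.N b g)
      (fun γ hγ x => ξ.inv.ip (cutF_inv hc D') hγ x) (fun x hx => by rw [cutF_off hc hx]; simp)]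
    exact setIntegral_congr_fun hm fun x hx => by
      simp only [cutF_on hx, ip_rsmul_left, ip_rsmul_right]

end CutF

end Pool.Agent.MP_d9582c_gt.H63
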