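import Pool.Agent.MP_d9582c_gt.H63.Wt

/-!
Transfer between the quotient and the cover; traces with smooth forms.
-/

open scoped Manifold ContDiff Topology ENNReal Pointwise InnerProductSpace
open MeasureTheory Set Filter ContinuousLinearMap UniformSpace

noncomputable section

namespace Pool.Agent.MP_d9582c_gt.H63

open H34

universe u v

variable {n p : ℕ} {M : Type u} [TopologicalSpace M] [ChartedSpace (E n) M]
  {G : Type v} [Group G] [MulAction G M] [IsManifold 𝓘(ℝ, E n) ∞ M] [MeasurableSpace M]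
  {X : Geo n G M}

variable (X) in
open Classical in
/-- The ball of radius `R` in the group. -/
def ball (R : ℕ) : Finset G := X.S ^ R

lemma mem_ball {R : ℕ} {g : G} : g ∈ ball X R ↔ g ∈ (X.S : Set G) ^ R := by
  classical
  rw [ball, ← Finset.mem_coe, Finset.coe_pow]

lemma card_ball (R : ℕ) : ((ball X R).card : ℝ) ≤ X.S.card ^ R := by
  classical
  exact_mod_cast (Finset.card_pow_le : (X.S ^ R).card ≤ _)

lemma inv_mem_pow {R : ℕ} {g : G} (h : g ∈ (X.S : Set G) ^ R) : g⁻¹ ∈ (X.S : Set G) ^ R := by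
  have : (X.S : Set G)⁻¹ = X.S := Set.ext fun g =>
    ⟨fun h => by simpa using X.inv_mem _ h, fun h => X.inv_mem _ h⟩
  rw [← this, inv_pow]
  simpa using h

/-- The point `x` lies, up to `ν`, well inside the ball. -/
def Good (N : Subgroup G) (R : ℕ) (x : M) (ν : G) : Prop :=
  ν ∈ N ∧ ∃ b, x ∈ X.V b ∧ ν⁻¹ * X.idx b x ∈ (X.S : Set G) ^ (R - 1)

lemma sum_sel {N : Subgroup G} {R : ℕ} (hR : 1 ≤ R)
    (hN : ∀ γ ∈ N, γ ∈ (X.S : Set G) ^ (2 * R + 2) → γ = 1) {x : M} {ν : G}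
    (h : Good (X := X) N R x ν) {b : Fin X.m} (hb : x ∈ X.V b) (η : M → Alt n p) :
    ∑ g ∈ ball X R, sel N g η (X.idx b x) x = tr ν η x := by
  obtain ⟨hν, a, ha, h⟩ := h
  have h1 : ν⁻¹ * X.idx b x ∈ (X.S : Set G) ^ R := by
    have := mul_mem_mul h (Finset.mem_coe.2 (Geo.idx_adj ha hb))
    rwa [← pow_succ, Nat.sub_add_cancel hR, mul_assoc, mul_inv_cancel_left] at this
  have h2 : X.idx b x * (ν⁻¹ * X.idx b x)⁻¹ = ν := by group
  rw [Finset.sum_eq_single_of_mem _ (mem_ball.2 h1) fun g hg hne => ?_,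
    sel_pos (by rwa [h2]), h2]
  rw [sel_neg fun h' => hne ?_, Pi.zero_apply]
  have h3 := mul_mem_mul h1 (inv_mem_pow (mem_ball.1 hg))
  rw [← pow_add] at h3
  have := hN _ (by rw [mul_assoc]; exact N.mul_mem (N.inv_mem hν) h')
    (pow_subset_pow_right (Finset.mem_coe.2 X.one_mem) (by omega) h3)
  exact (mul_inv_eq_one.1 this).symm

variable [BorelSpace M] (D D' : FD X) (R : ℕ)

/-- Wedge product with `2 dφ`. -/
def dφOp (b : Fin X.m) (p : ℕ) : Op D p D (p + 1) (1 * κ X) :=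
  wedgeOp D p (fun x => 2 * X.φ b x) 1 (contMDiff_const.mul (X.smooth b))
    (fun γ _ x => by rw [X.inv]) zero_le_one fun x v => by
      rw [dfun_const_mul _ (Geo.mdiff_φ b x), smul_apply, smul_eq_mul]
      nlinarith [X.dφ_le b x v]

variable [Countable G]

/-- One term of the error of the transfer. -/
def zP (i : Fin X.m × G) (η : D.P p) : D'.P (p + 1) :=
  (dφOp D' i.1 p).pre ((cutOp (cut₁ i.1) i.2 D D' p).pre η)

lemma zP_val (i : Fin X.m × G) (η : D.P p) (x : M) : (zP D D' i η).1 x =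
    wedge (dfun n (fun y => X.φ i.1 y ^ 2) x) (sel D'.N i.2 η.1 (X.idx i.1 x) x) := by
  change wedge (dfun n (fun x => 2 * X.φ i.1 x) x) (X.φ i.1 x • _) = _
  rw [dfun_const_mul _ (Geo.mdiff_φ _ x), Geo.dfun_φ_sq, wedge_smul_left, wedge_smul_left,
    wedge_rsmul_right, smul_smul]

/-- The transfer operator. -/
def trL (p : ℕ) : D.H p →L[ℂ] D'.H p :=
  ∑ i ∈ Finset.univ ×ˢ ball X R, (cutOp (cut₂ i.1) i.2 D D' p).clm

/-- The error of the transfer operator. -/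
def trB (p : ℕ) : D.H p →L[ℂ] D'.H (p + 1) :=
  ∑ i ∈ Finset.univ ×ˢ ball X R, (dφOp D' i.1 p).clm ∘L (cutOp (cut₁ i.1) i.2 D D' p).clm

/-- The transfer on smooth forms. -/
def lP (η : D.P p) : D'.P p := ∑ i ∈ Finset.univ ×ˢ ball X R, (cutOp (cut₂ i.1) i.2 D D' p).pre η

/-- The error on smooth forms. -/
def bP (η : D.P p) : D'.P (p + 1) := ∑ i ∈ Finset.univ ×ˢ ball X R, zP D D' i η

lemma trL_coe (η : D.P p) : trL D D' R p η = lP D D' R η := by
  simp only [trL, lP, sum_apply, Op.clm_coe, FD.P.coe_sum]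

lemma trB_coe (η : D.P p) : trB D D' R p η = bP D D' R η := by
  simp only [trB, bP, zP, sum_apply, comp_apply, Op.clm_coe, FD.P.coe_sum]

lemma lP_val (η : D.P p) (x : M) : (lP D D' R η).1 x =
    ∑ i ∈ Finset.univ ×ˢ ball X R, cutF X D'.N i.1 (fun y => X.φ i.1 y ^ 2) i.2 η.1 x := by
  rw [lP, FD.P.val_sum, Finset.sum_apply]; rfl

lemma bP_val (η : D.P p) (x : M) :
    (bP D D' R η).1 x = ∑ i ∈ Finset.univ ×ˢ ball X R, (zP D D' i η).1 x := by
  rw [bP, FD.P.val_sum, Finset.sum_apply]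

lemma adjoint_trL : adjoint (trL D D' R p) = trL D' D R p := by
  simp only [trL, map_sum, adjoint_cutOp]

lemma tr_graph {u : D.H p} {a : D.H (p + 1)} (h : (u, a) ∈ D.Gr p) :
    (trL D D' R p u, trL D D' R (p + 1) a + trB D D' R p u) ∈ D'.Gr p := by
  refine FD.Gr_ind
    (R := fun u a => (trL D D' R p u, trL D D' R (p + 1) a + trB D D' R p u) ∈ D'.Gr p)
    (FD.closed_Gr.preimage (by fun_prop)) (fun η ξ hξ => ?_) h
  simp only [trL_coe, trB_coe, ← FD.P.coe_add]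
  refine FD.mem_Gr (funext fun x => ?_)
  change (lP D D' R ξ).1 x + (bP D D' R η).1 x = _
  rw [funext (lP_val D D' R η), extD_sum fun i _ => (cutF_smooth (cut₂ i.1) η.smooth x).1, lP_val,
    bP_val, ← Finset.sum_add_distrib, hξ]
  exact Finset.sum_congr rfl fun i _ => by rw [(cutF_smooth (cut₂ i.1) η.smooth x).2, zP_val]

variable {D' R} (hR : 1 ≤ R) (hN : ∀ γ ∈ D'.N, γ ∈ (X.S : Set G) ^ (2 * R + 2) → γ = 1)
include hR hN

lemma lP_good {x : M} {ν : G} (h : Good (X := X) D'.N R x ν) (η : D.P p) :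
    (lP D D' R η).1 x = tr ν η.1 x := by
  rw [lP_val, Finset.sum_product]
  refine (Finset.sum_congr rfl (g := fun b => X.φ b x ^ 2 • tr ν η.1 x) fun b _ => ?_).trans ?_
  · by_cases hb : x ∈ X.V b
    · rw [← sum_sel hR hN h hb, Finset.smul_sum]; rfl
    · simp [cutF, Geo.φ_eq_zero hb]
  · rw [← alt_sum_rsmul, X.sum_sq, one_smul]

lemma bP_good {x : M} {ν : G} (h : Good (X := X) D'.N R x ν) (η : D.P p) :
    (bP D D' R η).1 x = 0 := by
  rw [bP_val, Finset.sum_product]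
  refine (Finset.sum_congr rfl (g := fun b => wedge (dfun n (fun y => X.φ b y ^ 2) x)
    (tr ν η.1 x)) fun b _ => ?_).trans ?_
  · by_cases hb : x ∈ X.V b
    · simp only [zP_val]
      rw [← sum_sel hR hN h hb]
      exact (map_sum (AddMonoidHom.mk' (wedge (p := p) (dfun n (fun y => X.φ b y ^ 2) x))
        (wedge_add_right _)) _ _).symm
    · simp [zP_val, Geo.dfun_φ_sq_eq_zero hb]
  · rw [← wedge_sum_left, Geo.sum_dfun_φ_sq, wedge_zero_left]

omit hR hN [Countable G] in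
/-- Integration of a pointwise bound by a finite sum. -/
lemma nrm_le_sum {ι : Type*} (s : Finset ι) {η : M → Alt n p} (ζ : ι → D'.P p) {k : ℝ}
    (hk : 0 ≤ k) (h : ∀ x, nsq X.g x (η x) ≤ k * ∑ i ∈ s, nsq X.g x ((ζ i).1 x)) :
    D'.nrm η ≤ ENNReal.ofReal k * ∑ i ∈ s, D'.nrm (ζ i).1 := by
  simp only [FD.nrm]
  rw [← lintegral_finsetSum _ fun i _ => FD.measurable_nsq (ζ i).smooth,
    ← lintegral_const_mul' _ _ ENNReal.ofReal_ne_top]
  refine lintegral_mono fun x => ?_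
  rw [← ENNReal.ofReal_sum_of_nonneg fun _ _ => nsq_nonneg _ _ _, ← ENNReal.ofReal_mul hk]
  exact ENNReal.ofReal_le_ofReal (h x)

omit hR hN [BorelSpace M] [Countable G] in
lemma final_le {s : Finset (Fin X.m × G)} (hs : s ⊆ Finset.univ ×ˢ ball X R) {e : ℝ}
    {f : Fin X.m × G → ℝ≥0∞} {A : ℝ≥0∞} (h : ∀ i ∈ s, f i ≤ ENNReal.ofReal ((κ X * e) ^ 2) * A) :
    ENNReal.ofReal s.card * ∑ i ∈ s, f i ≤
      ENNReal.ofReal ((cL X * X.S.card ^ R * e) ^ 2) * A := by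
  refine (mul_le_mul_right (Finset.sum_le_sum h) _).trans ?_
  rw [Finset.sum_const, nsmul_eq_mul, ← ENNReal.ofReal_natCast, ← mul_assoc, ← mul_assoc,
    ← ENNReal.ofReal_mul (Nat.cast_nonneg _), ← ENNReal.ofReal_mul (by positivity)]
  refine mul_le_mul_left (ENNReal.ofReal_le_ofReal ?_) _
  have h1 : (s.card : ℝ) ≤ X.m * X.S.card ^ R := by
    refine le_trans ?_ (mul_le_mul_of_nonneg_left (card_ball R) (Nat.cast_nonneg _))
    exact_mod_cast (Finset.card_le_card hs).trans (by simp)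
  have h2 := κ_nonneg (X := X)
  have h3 : s.card * κ X ≤ cL X * X.S.card ^ R := by
    calc s.card * κ X ≤ X.m * X.S.card ^ R * (2 * κ X) := by gcongr; linarith
      _ = X.m * (2 * κ X) * X.S.card ^ R := by ring
      _ ≤ _ := by gcongr; exact le_cL'
  calc (s.card : ℝ) * s.card * (κ X * e) ^ 2 = (s.card * κ X) ^ 2 * e ^ 2 := by ring
    _ ≤ (cL X * X.S.card ^ R) ^ 2 * e ^ 2 := by gcongr
    _ = _ := by ring

omit hR hN [BorelSpace M] [Countable G] in
lemma wt_bot_ge {b : Fin X.m} {x : M} (hb : x ∈ X.V b)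
    (h : X.idx b x ∉ (X.S : Set G) ^ (R - 1)) : (R : ℝ) - 1 ≤ wt (FD.bot X) R x := by
  have h2 := (abs_le.1 (wt_sub (FD.bot X) R hb)).1
  have h3 : (R : ℝ) ≤ lenx (FD.bot X) R b x := by
    unfold lenx
    refine Nat.cast_le.2 (le_len R (Finset.mem_coe.2 X.one_mem) (j := R - 1) (by omega) ?_)
    rintro ⟨g, hg, e⟩
    rw [QuotientGroup.eq] at e
    exact h (inv_mul_eq_one.1 e ▸ hg)
  linarith

omit hR hN in
lemma nrm_zP_le (i : Fin X.m × G) (η : D.P p) {ξ : M → Alt n p} (hξ : D.Inv ξ) {e : ℝ}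
    (h : ∀ x, i.2⁻¹ • x ∈ X.U i.1 → nsq X.g x (η.1 x) ≤ e ^ 2 * nsq X.g x (ξ x)) :
    D'.nrm (zP D D' i η).1 ≤ ENNReal.ofReal ((κ X * e) ^ 2) * D.nrm ξ := by
  refine ((dφOp D' i.1 p).bound _).trans ?_
  rw [one_mul, mul_pow, ENNReal.ofReal_mul (sq_nonneg _), mul_assoc]
  exact mul_le_mul_right (nrm_cutF_le (cut₁ i.1) D D' hξ (sq_nonneg e) h) _

omit D in
lemma trB_le {a : ℝ} (ha : 0 ≤ a) (u : (FD.bot X).H p) : ‖trB (FD.bot X) D' R p u‖ ≤
    cL X * X.S.card ^ R * Real.exp (-(a * (R - 1))) * ‖(wOp (FD.bot X) R a p).clm u‖ := by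
  classical
  have hc : 0 ≤ cL X := (Nat.cast_nonneg _).trans le_cL
  refine compl_le (fun η => norm_le_of_enorm_sq (by positivity) ?_) u
  rw [trB_coe, Op.clm_coe, FD.P.enorm_coe_sq, FD.P.enorm_coe_sq]
  set s := (Finset.univ ×ˢ ball X R).filter fun i : Fin X.m × G => i.2 ∉ (X.S : Set G) ^ (R - 1)
  refine (nrm_le_sum s (fun i => zP (FD.bot X) D' i η) (Nat.cast_nonneg s.card) fun x => ?_).trans
    (final_le (Finset.filter_subset _ _) fun i hi => nrm_zP_le _ i η (FD.P.inv _) fun x hx =>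
      nsq_le_w _ R ha (wt_bot_ge ⟨_, hx⟩ ?_) _)
  · by_cases h : ∃ ν, Good (X := X) D'.N R x ν
    · obtain ⟨ν, h⟩ := h
      rw [bP_good _ hR hN h, nsq_zero]
      exact mul_nonneg (Nat.cast_nonneg _) (Finset.sum_nonneg fun _ _ => nsq_nonneg _ _ _)
    · rw [bP_val, ← Finset.sum_filter_of_ne (p := fun i : Fin X.m × G =>
        i.2 ∉ (X.S : Set G) ^ (R - 1)) fun i _ hi hi' => hi ?_]
      · exact nsq_sum_le _ _ _ _
      rw [zP_val]
      by_cases hb : x ∈ X.V i.1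
      · rw [sel_neg fun h' => h ⟨_, h', i.1, hb, by simpa using hi'⟩]; simp
      · simp [Geo.dfun_φ_sq_eq_zero hb]
  · rw [Geo.idx_eq hx]
    exact (Finset.mem_filter.1 hi).2

omit hN in
lemma adjoint_trB_le {a : ℝ} (ha : 0 ≤ a) (u : (FD.bot X).H (p + 1)) :
    ‖adjoint (trB D (FD.bot X) R p) u‖ ≤
      cL X * X.S.card ^ R * Real.exp (-(a * (R - 1))) * ‖(wOp (FD.bot X) R a (p + 1)).clm u‖ := by
  have hc : 0 ≤ cL X := (Nat.cast_nonneg _).trans le_cL
  have key : ∀ v, ‖((wOp (FD.bot X) R (-a) (p + 1)).clm ∘L trB D (FD.bot X) R p) v‖ ≤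
      cL X * X.S.card ^ R * Real.exp (-(a * (R - 1))) * ‖ContinuousLinearMap.id ℂ _ v‖ := by
    refine compl_le fun η : D.P p => norm_le_of_enorm_sq (by positivity) ?_
    rw [comp_apply, trB_coe, Op.clm_coe, id_apply, FD.P.enorm_coe_sq, FD.P.enorm_coe_sq]
    refine (FD.nrm_mono (ξ := (bP D (FD.bot X) R η).1) (sq_nonneg (Real.exp (-(a * (R - 1)))))
      fun x => ?_).trans ?_
    · simp only [Op.pre_val, wOp_T, nsq_rsmul]
      by_cases h : Good (X := X) ⊥ R x 1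
      · rw [bP_good D (D' := FD.bot X) hR (fun _ hγ _ => hγ) h, nsq_zero, mul_zero, mul_zero]
      obtain ⟨b, hb⟩ := Geo.exists_V (X := X) x
      have := wt_bot_ge (R := R) hb fun h' => h ⟨Subgroup.one_mem _, b, hb, by simpa using h'⟩
      refine mul_le_mul_of_nonneg_right (pow_le_pow_left₀ (Real.exp_pos _).le
        (Real.exp_le_exp.2 ?_) 2) (nsq_nonneg _ _ _)
      nlinarith
    · have h1 := (nrm_le_sum (η := (bP D (FD.bot X) R η).1) (Finset.univ ×ˢ ball X R)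
        (fun i => zP D (FD.bot X) i η) (Nat.cast_nonneg (Finset.univ ×ˢ ball X R).card) fun x => by
          rw [bP_val]; exact nsq_sum_le _ _ _ _).trans
        (final_le (e := 1) subset_rfl fun i _ => nrm_zP_le _ i η η.inv fun x _ => by simp)
      refine (mul_le_mul_right h1 _).trans (le_of_eq ?_)
      rw [← mul_assoc, ← ENNReal.ofReal_mul (sq_nonneg _)]
      congr 2; ring
  set v := adjoint (trB D (FD.bot X) R p) u with hv
  have h1 : ⟪v, v⟫_ℂ = ⟪(wOp (FD.bot X) R a (p + 1)).clm u,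
      (wOp (FD.bot X) R (-a) (p + 1)).clm (trB D (FD.bot X) R p v)⟫_ℂ := by
    have hs : IsSelfAdjoint (wOp (FD.bot X) R a (p + 1)).clm := mulOp_sa _ _ _ _ _ _ _
    rw [← adjoint_inner_right (wOp (FD.bot X) R a (p + 1)).clm, hs.adjoint_eq, w_inv,
      ← adjoint_inner_left (trB D (FD.bot X) R p)]
  have h2 : ‖v‖ * ‖v‖ ≤ ‖(wOp (FD.bot X) R a (p + 1)).clm u‖ *
      (cL X * X.S.card ^ R * Real.exp (-(a * (R - 1))) * ‖v‖) := by
    rw [← @inner_self_eq_norm_mul_norm ℂ, h1]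
    exact (RCLike.re_le_norm _).trans ((norm_inner_le_norm _ _).trans
      (mul_le_mul_of_nonneg_left (key v) (norm_nonneg _)))
  rcases (norm_nonneg v).eq_or_lt with h | h
  · rw [← h]; positivity
  · exact le_of_mul_le_mul_right (h2.trans (le_of_eq (by ring))) h

omit hR hN [BorelSpace M] [Countable G] in
lemma cutF_bot_congr {b : Fin X.m} {η ξ : M → Alt n p} (h : ∀ x ∈ X.U b, η x = ξ x) :
    cutF X ⊥ b (X.φ b) 1 η = cutF X ⊥ b (X.φ b) 1 ξ := funext fun x => by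
  by_cases hx : x ∈ X.U b
  · rw [cutF_on (by simpa using hx), cutF_on (by simpa using hx), h x hx]
  · have : ∀ γ ∈ (⊥ : Subgroup G), γ • x ∉ {x : M | (1 : G)⁻¹ • x ∈ X.U b} := fun γ hγ => by
      rw [Subgroup.mem_bot.1 hγ]; simpa using hx
    rw [cutF_off (cut₁ b) this, cutF_off (cut₁ b) this]

omit hR hN in
lemma Φ_congr {η : D.P p} {ξ : D'.P p} (h : ∀ b, ∀ x ∈ X.U b, η.1 x = ξ.1 x) :
    Φ D p η = Φ D' p ξ := PiLp.ext fun b => by
  rw [Φ_apply, Φ_apply, Op.clm_coe, Op.clm_coe]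
  exact FD.P.coe_congr (cutF_bot_congr (h b))

omit D in
lemma transfer : Cx.Transfer (locD (FD.bot X)) (locD D') R := by
  have hc : 0 ≤ cL X := (Nat.cast_nonneg _).trans le_cL
  have he : ∀ a ≥ (0 : ℝ), Real.exp (-(a * (R - 1))) ≤ Real.exp (a * (3 - R)) := fun a ha =>
    Real.exp_le_exp.2 (by linarith)
  refine ⟨trL D' (FD.bot X) R, trB D' (FD.bot X) R, trB (FD.bot X) D' R,
    fun p v a h => tr_graph _ _ R h, fun p u a h => ?_, fun a ha p => ⟨fun u => ?_, fun u => ?_⟩,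
    fun p v => ?_, fun p γ hγ u => ?_⟩
  · have := tr_graph _ D' R h
    rwa [← adjoint_trL D' _ R (p := p), ← adjoint_trL D' _ R (p := p + 1)] at this
  · exact (adjoint_trB_le D' hR ha u).trans (mul_le_mul_of_nonneg_right
      (mul_le_mul_of_nonneg_left (he a ha) (by positivity)) (norm_nonneg _))
  · exact (trB_le hR hN ha u).trans (mul_le_mul_of_nonneg_right
      (mul_le_mul_of_nonneg_left (he a ha) (by positivity)) (norm_nonneg _))
  · refine DFunLike.congr_fun (compl_ext (T := Φ D' p)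
      (T' := Φ (FD.bot X) p ∘L trL D' (FD.bot X) R p) fun η => ?_) v
    rw [comp_apply, trL_coe]
    refine Φ_congr _ fun b x hx => ?_
    have hx' : (1 : G)⁻¹ • x ∈ X.U b := by simpa using hx
    rw [lP_good D' (D' := FD.bot X) hR (fun _ hγ _ => hγ) (ν := 1) ⟨Subgroup.one_mem _, b, ⟨1, hx'⟩, by
      simpa [Geo.idx_eq hx'] using one_mem_pow (Finset.mem_coe.2 X.one_mem)⟩, tr_one]
  · refine Eq.trans ?_ (DFunLike.congr_fun (compl_ext
      (T := Φ D' p ∘L (D'.trOp p γ⁻¹).clm ∘L trL (FD.bot X) D' R p)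
      (T' := Φ (FD.bot X) p ∘L ((FD.bot X).trOp p γ⁻¹).clm) fun η => ?_) u)
    · rw [← adjoint_trL D' _ R (p := p)]; rfl
    simp only [comp_apply, trL_coe, Op.clm_coe]
    refine Φ_congr _ fun b x hx => tr_apply_congr _ ?_
    have hx' : γ⁻¹ • γ • x ∈ X.U b := by simpa using hx
    rw [inv_inv, lP_good _ hR hN (ν := 1) ⟨Subgroup.one_mem _, b, ⟨γ, hx'⟩, by
      simpa [Geo.idx_eq hx'] using hγ⟩, tr_one]

omit hR hN in
lemma trace_le (S : D.H p →L[ℂ] D.H p) (C : ℝ≥0∞) (hS : Equi (D.rep p) (D.rep p) S)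
    (h : ∀ (k : ℕ) (w : Fin k → D.P p), IsBessel (D.rep p) (fun j => (w j : D.H p)) 4 →
      hs (fun j => (w j : D.H p)) S ≤ C) :
    vnTrace (fun q => D.rep p q) (adjoint S ∘L S) ≤ C := by
  obtain ⟨ι, e, -⟩ := exists_hilbertBasis ℂ (X.K p)
  rw [vnTrace_eq (isFrame_of_local e (parseval D)) hS fun u => by
    rw [comp_apply, adjoint_inner_right, @norm_sq_eq_re_inner ℂ]; rfl, hs,
    ENNReal.tsum_eq_iSup_sum]
  refine iSup_le fun s => ?_
  rw [← Finset.sum_coe_sort, ← s.equivFin.symm.sum_comp]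
  set e' : Fin s.card → X.K p := fun j => e (s.equivFin.symm j)
  have hd : DenseRange fun (z : Fin s.card → Fin X.m → (FD.bot X).P p) j b =>
      (z j b : (FD.bot X).H p) :=
    DenseRange.piMap fun _ => DenseRange.piMap fun _ => Completion.denseRange_coe
  have ho : IsOpen {z : Fin s.card → Fin X.m → (FD.bot X).H p |
      ∑ j, ‖WithLp.toLp 2 (z j) - e' j‖ ^ 2 < 1} := isOpen_lt (by fun_prop) continuous_const
  have hc : IsClosed {z : Fin s.card → Fin X.m → (FD.bot X).H p |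
      ∑ j, ‖S (adjoint (Φ D p) (WithLp.toLp 2 (z j)))‖ₑ ^ 2 ≤ C} :=
    isClosed_le (by fun_prop) continuous_const
  refine closure_minimal ?_ hc (Dense.open_subset_closure_inter hd ho
    (a := fun j => (e' j).ofLp) (by simp))
  rintro _ ⟨hz, z, rfl⟩
  have hw : ∀ j, ((∑ b, (cutOp (cut₁ b) 1 (FD.bot X) D p).pre (z j b) : D.P p) : D.H p) =
      adjoint (Φ D p) (WithLp.toLp 2 fun b => (z j b : (FD.bot X).H p)) := fun j => by
    simp only [adjoint_Φ, FD.P.coe_sum, Op.clm_coe]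
  have := h _ (fun j => ∑ b, (cutOp (cut₁ b) 1 (FD.bot X) D p).pre (z j b)) fun u => ?_
  · simp only [hs, tsum_fintype, hw] at this
    exact this
  simp only [hw, inner_rep, adjoint_inner_left]
  rw [ENNReal.tsum_comm, ← parseval D u, ← ENNReal.tsum_mul_left]
  refine ENNReal.tsum_le_tsum fun q => ?_
  set y := Φ D p (D.rep p q⁻¹ u)
  have h1 : ∑ j, ‖⟪e' j, y⟫_ℂ‖ ^ 2 ≤ ‖y‖ ^ 2 :=
    (e.orthonormal.comp _ (Subtype.val_injective.comp
      s.equivFin.symm.injective)).sum_inner_products_le y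
  have h2 : ∀ k k' : X.K p, ‖⟪k, y⟫_ℂ‖ ^ 2 ≤ 2 * ‖⟪k', y⟫_ℂ‖ ^ 2 + 2 * (‖k - k'‖ ^ 2 * ‖y‖ ^ 2) :=
    fun k k' => by
      have h3 : ‖⟪k, y⟫_ℂ‖ ≤ ‖⟪k', y⟫_ℂ‖ + ‖k - k'‖ * ‖y‖ := by
        rw [← add_sub_cancel k' k, inner_add_left, add_sub_cancel_left]
        exact (norm_add_le _ _).trans (add_le_add_right (norm_inner_le_norm _ _) _)
      nlinarith [pow_le_pow_left₀ (norm_nonneg _) h3 2,
        sq_nonneg (‖⟪k', y⟫_ℂ‖ - ‖k - k'‖ * ‖y‖)]
  simp only [tsum_fintype, enorm_sq_eq]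
  rw [← ENNReal.ofReal_sum_of_nonneg fun _ _ => sq_nonneg _, ← ENNReal.ofReal_ofNat 4,
    ← ENNReal.ofReal_mul (by norm_num)]
  refine ENNReal.ofReal_le_ofReal ((Finset.sum_le_sum fun j _ => h2 _ (e' j)).trans ?_)
  rw [Finset.sum_add_distrib, ← Finset.mul_sum, ← Finset.mul_sum, ← Finset.sum_mul]
  nlinarith [mul_le_of_le_one_left (sq_nonneg ‖y‖) (le_of_lt hz)]

omit hR hN in
theorem loc : LocStmt.{u, v} := by
  intro n M _ _ G _ _ _ _ _ _ X
  refine ⟨cL X, fun D => locD D, fun D R hN hR => ?_, fun D p S C => trace_le D S C⟩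
  exact transfer (by omega) hN

end Pool.Agent.MP_d9582c_gt.H63
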