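import Pool.Agent.MP_d9582c_gt.H63.Ops

/-!
The localization operator and the exponential weights.
-/

open scoped Manifold ContDiff Topology ENNReal Pointwise InnerProductSpace
open MeasureTheory Set Filter ContinuousLinearMap UniformSpace

noncomputable section

namespace Pool.Agent.MP_d9582c_gt.H63

open H34

universe u v

section Len

variable {G : Type v} [Group G] (N : Subgroup G) (S : Set G) (m : ℕ)

/-- The word length in the quotient, truncated at `m`. -/
def len (g : G) : ℕ := sInf {k | (g : G ⧸ N) ∈ QuotientGroup.mk '' S ^ k ∨ m ≤ k}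

lemma len_le (g : G) : len N S m g ≤ m := Nat.sInf_le (Or.inr le_rfl)

lemma len_spec (g : G) :
    (g : G ⧸ N) ∈ QuotientGroup.mk '' S ^ len N S m g ∨ m ≤ len N S m g :=
  Nat.sInf_mem (s := {k | (g : G ⧸ N) ∈ QuotientGroup.mk '' S ^ k ∨ m ≤ k}) ⟨m, Or.inr le_rfl⟩

variable {N S}

lemma le_len (h1 : 1 ∈ S) {g : G} {j : ℕ} (hj : m ≤ j + 1)
    (h : (g : G ⧸ N) ∉ QuotientGroup.mk '' S ^ j) : m ≤ len N S m g := by
  by_contra hlt
  rcases len_spec N S m g with h' | h'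
  · exact h (image_mono (pow_subset_pow_right h1 (by omega)) h')
  · exact hlt h'

variable [N.Normal]

lemma len_mul (g : G) {s : G} (hs : s ∈ S) : len N S m (g * s) ≤ len N S m g + 1 := by
  rcases len_spec N S m g with ⟨a, ha, h⟩ | h
  · exact Nat.sInf_le (Or.inl ⟨a * s, by rw [pow_succ]; exact mul_mem_mul ha hs, by
      rw [QuotientGroup.mk_mul, QuotientGroup.mk_mul, h]⟩)
  · exact (len_le N S m _).trans (h.trans (Nat.le_succ _))

lemma len_of_mem {g : G} (hg : g ∈ N) : len N S m g = 0 :=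
  Nat.eq_zero_of_le_zero (Nat.sInf_le (Or.inl ⟨1, by simp, by
    rw [QuotientGroup.mk_one, eq_comm, QuotientGroup.eq_one_iff]; exact hg⟩))

lemma len_inv {ν : G} (hν : ν ∈ N) (g : G) : len N S m (ν * g) = len N S m g := by
  rw [len, QuotientGroup.mk_mul, (QuotientGroup.eq_one_iff ν).2 hν, one_mul, len]

end Len

variable {n p p' : ℕ} {M : Type u} [TopologicalSpace M] [ChartedSpace (E n) M]
  {G : Type v} [Group G] [MulAction G M] [IsManifold 𝓘(ℝ, E n) ∞ M] [MeasurableSpace M]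
  {X : Geo n G M} (D : FD X) (m : ℕ)

/-- The truncated length of the local index. -/
def lenx (b : Fin X.m) (x : M) : ℝ := len D.N X.S m (X.idx b x)

/-- A smooth version of the truncated distance to the base region. -/
def wt (x : M) : ℝ := ∑ b, lenx D m b x * X.φ b x ^ 2

lemma wt_glue (b : Fin X.m) :
    ContMDiff 𝓘(ℝ, E n) 𝓘(ℝ, ℝ) ∞ (fun y => lenx D m b y * X.φ b y ^ 2) ∧
      ∀ x, dfun n (fun y => lenx D m b y * X.φ b y ^ 2) x =
        lenx D m b x • dfun n (fun y => X.φ b y ^ 2) x :=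
  Geo.glue_fun (cut₂ b).smooth (cut₂ b).ev fun g => (len D.N X.S m g : ℝ)

lemma wt_smooth : ContMDiff 𝓘(ℝ, E n) 𝓘(ℝ, ℝ) ∞ (wt D m) :=
  contMDiff_finsetSum fun b _ => (wt_glue D m b).1

lemma wt_inv : ∀ γ ∈ D.N, ∀ x, wt D m (γ • x) = wt D m x := fun γ hγ x =>
  Finset.sum_congr rfl fun b _ => by
    rw [X.inv]
    by_cases hx : x ∈ X.V b
    · rw [lenx, Geo.idx_smul hx, len_inv m hγ, lenx]
    · simp [Geo.φ_eq_zero hx]

lemma lenx_sub {a b : Fin X.m} {x : M} (ha : x ∈ X.V a) (hb : x ∈ X.V b) :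
    |lenx D m b x - lenx D m a x| ≤ 1 := by
  have key : ∀ {a b : Fin X.m}, x ∈ X.V a → x ∈ X.V b → lenx D m b x ≤ lenx D m a x + 1 :=
    fun {a b} ha hb => by
      have := len_mul (N := D.N) m (X.idx a x) (Finset.mem_coe.2 (Geo.idx_adj ha hb))
      rw [mul_inv_cancel_left] at this
      unfold lenx
      exact_mod_cast this
  rw [abs_le]
  constructor <;> linarith [key ha hb, key hb ha]

lemma wt_sub {a : Fin X.m} {x : M} (ha : x ∈ X.V a) : |wt D m x - lenx D m a x| ≤ 1 := by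
  have : wt D m x - lenx D m a x = ∑ b, (lenx D m b x - lenx D m a x) * X.φ b x ^ 2 := by
    simp only [sub_mul, Finset.sum_sub_distrib, ← Finset.mul_sum, X.sum_sq, mul_one, wt]
  rw [this, ← X.sum_sq x]
  refine (Finset.abs_sum_le_sum_abs _ _).trans (Finset.sum_le_sum fun b _ => ?_)
  by_cases hb : x ∈ X.V b
  · rw [abs_mul, abs_sq]
    exact mul_le_of_le_one_left (sq_nonneg _) (lenx_sub D m ha hb)
  · simp [Geo.φ_eq_zero hb]

lemma abs_wt_le (x : M) : |wt D m x| ≤ m + 1 := by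
  obtain ⟨a, ha⟩ := Geo.exists_V (X := X) x
  have h1 := abs_le.1 (wt_sub D m ha)
  have h2 : lenx D m a x ≤ m := Nat.cast_le.2 (len_le _ _ _ _)
  have h3 : 0 ≤ lenx D m a x := Nat.cast_nonneg _
  rw [abs_le]
  constructor <;> linarith [h1.1, h1.2]

lemma dfun_wt_le (x : M) (v : E n) :
    dfun n (wt D m) x v ^ 2 ≤ (X.m : ℝ) ^ 2 * (4 * X.cφ) * gx X.g x v v := by
  obtain ⟨a, ha⟩ := Geo.exists_V (X := X) x
  have h1 : dfun n (wt D m) x = ∑ b, lenx D m b x • dfun n (fun y => X.φ b y ^ 2) x := by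
    rw [← funext fun b => (wt_glue D m b).2 x]
    exact dfun_sum fun b _ => ((wt_glue D m b).1 x).mdifferentiableAt (by simp)
  have h2 := DFunLike.congr_fun (Geo.sum_dfun_φ_sq (X := X) x) v
  rw [sum_apply, zero_apply] at h2
  have h3 : dfun n (wt D m) x v =
      ∑ b, (lenx D m b x - lenx D m a x) * dfun n (fun y => X.φ b y ^ 2) x v := by
    simp only [sub_mul, Finset.sum_sub_distrib, ← Finset.mul_sum, h2, h1, sum_apply, smul_apply,
      smul_eq_mul, mul_zero, sub_zero]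
  rw [h3]
  refine sq_sum_le_card_mul_sum_sq.trans ?_
  refine (mul_le_mul_of_nonneg_left (Finset.sum_le_sum
    (g := fun _ => 4 * X.cφ * gx X.g x v v) fun b _ => ?_) (Nat.cast_nonneg _)).trans
    (le_of_eq (by simp; ring))
  by_cases hb : x ∈ X.V b
  · rw [mul_pow]
    exact (mul_le_of_le_one_left (sq_nonneg _) ((sq_le_one_iff_abs_le_one _).2
      (lenx_sub D m ha hb))).trans (Geo.dfun_φ_sq_le b x v)
  · simpa [Geo.dfun_φ_sq_eq_zero hb] using Geo.dfun_φ_sq_le b x v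

lemma ew_smooth (a : ℝ) : ContMDiff 𝓘(ℝ, E n) 𝓘(ℝ, ℝ) ∞ fun x => Real.exp (a * wt D m x) :=
  (Real.contDiff_exp.comp (contDiff_const.mul contDiff_id)).comp_contMDiff (wt_smooth D m)

lemma dfun_ew (a : ℝ) (x : M) : dfun n (fun x => Real.exp (a * wt D m x)) x =
    (Real.exp (a * wt D m x) * a) • dfun n (wt D m) x :=
  dfun_real_comp (F := fun t => Real.exp (a * t))
    (by simpa using ((hasDerivAt_id (wt D m x)).const_mul a).exp)
    ((wt_smooth D m x).mdifferentiableAt (by simp))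

variable [BorelSpace M]

/-- The exponential weight. -/
def wOp (a : ℝ) (p : ℕ) : Op D p D p (Real.exp (|a| * (m + 1))) :=
  mulOp D p (fun x => Real.exp (a * wt D m x)) _ (ew_smooth D m a)
    (fun γ hγ x => by rw [wt_inv D m γ hγ]) (Real.exp_pos _).le fun x => by
      rw [Real.abs_exp, Real.exp_le_exp]
      exact (le_abs_self _).trans ((abs_mul _ _).le.trans
        (mul_le_mul_of_nonneg_left (abs_wt_le D m x) (abs_nonneg a)))

@[simp] lemma wOp_T (a : ℝ) (η : D.P p) :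
    (wOp D m a p).T η = fun y => Real.exp (a * wt D m y) • η.1 y := rfl

/-- The logarithmic derivative of the squared weight. -/
def yOp (a : ℝ) (p : ℕ) : Op D p D (p + 1) (2 * |a| * X.m * κ X) :=
  wedgeOp D p (fun x => 2 * a * wt D m x) _ (contMDiff_const.mul (wt_smooth D m))
    (fun γ hγ x => by rw [wt_inv D m γ hγ]) (by positivity) fun x v => by
      rw [dfun_const_mul _ ((wt_smooth D m x).mdifferentiableAt (by simp)), smul_apply,
        smul_eq_mul, mul_pow]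
      refine (mul_le_mul_of_nonneg_left (dfun_wt_le D m x v) (sq_nonneg _)).trans (le_of_eq ?_)
      simp only [mul_pow, sq_abs]; ring

lemma yOp_T (a : ℝ) (η : D.P p) (y : M) :
    (yOp D m a p).T η y = (2 * a) • wedge (dfun n (wt D m) y) (η.1 y) := by
  rw [← wedge_smul_left, ← dfun_const_mul _ ((wt_smooth D m y).mdifferentiableAt (by simp))]; rfl

lemma w_graph (a : ℝ) {u : D.H p} {b : D.H (p + 1)} (h : (u, b) ∈ D.Gr p) :
    ((wOp D m a p).clm ((wOp D m a p).clm u), (wOp D m a (p + 1)).clm ((wOp D m a (p + 1)).clm b) +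
      (wOp D m a (p + 1)).clm ((yOp D m a p).clm ((wOp D m a p).clm u))) ∈ D.Gr p := by
  refine FD.Gr_ind (R := fun u b => ((wOp D m a p).clm ((wOp D m a p).clm u),
    (wOp D m a (p + 1)).clm ((wOp D m a (p + 1)).clm b) +
      (wOp D m a (p + 1)).clm ((yOp D m a p).clm ((wOp D m a p).clm u))) ∈ D.Gr p)
    (FD.closed_Gr.preimage (by fun_prop)) (fun η ξ hξ => ?_) h
  simp only [Op.clm_coe, ← FD.P.coe_add]
  refine FD.mem_Gr (funext fun x => ?_)
  change Real.exp (a * wt D m x) • Real.exp (a * wt D m x) • ξ.1 x +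
    Real.exp (a * wt D m x) • (yOp D m a p).T ((wOp D m a p).pre η) x =
    extD (fun y => Real.exp (a * wt D m y) • Real.exp (a * wt D m y) • η.1 y) x
  rw [extD_fun_smul (ew_smooth D m a x) ((η.smooth x).fun_smul (ew_smooth D m a x)),
    extD_fun_smul (ew_smooth D m a x) (η.smooth x), yOp_T, hξ, dfun_ew, Op.pre_val, wOp_T]
  simp only [wedge_smul_left, wedge_rsmul_right, smul_add, smul_smul, add_assoc, ← alt_add_rsmul]
  congr 2; ring

lemma w_inv (a : ℝ) (u : D.H p) : (wOp D m a p).clm ((wOp D m (-a) p).clm u) = u :=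
  DFunLike.congr_fun (compl_ext (T := (wOp D m a p).clm ∘L (wOp D m (-a) p).clm)
    (T' := ContinuousLinearMap.id ℂ _) fun η => by
      simp only [comp_apply, Op.clm_coe, id_apply]
      refine FD.P.coe_congr (funext fun x => ?_)
      simp only [Op.pre_val, wOp_T, smul_smul, ← Real.exp_add]
      simp) u

omit [BorelSpace M] in
lemma nsq_le_w {a r : ℝ} (ha : 0 ≤ a) {x : M} (h : r ≤ wt D m x) (α : Alt n p) :
    nsq X.g x α ≤ Real.exp (-(a * r)) ^ 2 * nsq X.g x (Real.exp (a * wt D m x) • α) := by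
  rw [nsq_rsmul, ← mul_assoc, ← mul_pow, ← Real.exp_add]
  refine le_mul_of_one_le_left (nsq_nonneg _ _ _) (one_le_pow₀ (Real.one_le_exp ?_))
  nlinarith

variable [Countable G]

/-- The localization operator. -/
def Φ (p : ℕ) : D.H p →L[ℂ] X.K p :=
  (PiLp.continuousLinearEquiv 2 ℂ fun _ : Fin X.m => (FD.bot X).H p).symm.toContinuousLinearMap ∘L
    pi fun b => (cutOp (cut₁ b) 1 D (FD.bot X) p).clm

lemma Φ_apply (u : D.H p) (b : Fin X.m) :
    Φ D p u b = (cutOp (cut₁ b) 1 D (FD.bot X) p).clm u := rfl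

lemma adjoint_Φ (k : X.K p) :
    adjoint (Φ D p) k = ∑ b, (cutOp (cut₁ b) 1 (FD.bot X) D p).clm (k b) := by
  refine ext_inner_left ℂ fun v => ?_
  rw [adjoint_inner_right, PiLp.inner_apply, inner_sum]
  refine Finset.sum_congr rfl fun b _ => ?_
  rw [Φ_apply, ← adjoint_inner_right, adjoint_cutOp]

lemma enorm_Φ_sq (η : D.P p) :
    ‖Φ D p η‖ₑ ^ 2 = ∑ b, (FD.bot X).nrm (cutF X ⊥ b (X.φ b) 1 η.1) := by
  rw [enorm_sq_eq, PiLp.norm_sq_eq_of_L2, ENNReal.ofReal_sum_of_nonneg fun _ _ => sq_nonneg _]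
  refine Finset.sum_congr rfl fun b _ => ?_
  rw [← enorm_sq_eq, Φ_apply, Op.clm_coe, FD.P.enorm_coe_sq]; rfl

lemma rep_inv_coe (q : G ⧸ D.N) (η : D.P p) :
    D.rep p q⁻¹ η = (D.trOp p q.out⁻¹).pre η := by
  rw [← FD.rep_coe, QuotientGroup.mk_inv, QuotientGroup.out_eq']

/-- The unitary action as a continuous linear map. -/
abbrev repL (p : ℕ) (q : G ⧸ D.N) : D.H p →L[ℂ] D.H p :=
  (D.rep p q).toContinuousLinearEquiv.toContinuousLinearMap

lemma parseval (u : D.H p) : ∑' q, ‖Φ D p (D.rep p q⁻¹ u)‖ₑ ^ 2 = ‖u‖ₑ ^ 2 := by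
  refine parseval_ext (fun q => Φ D p ∘L repL D p q⁻¹) (fun η : D.P p => ?_) u
  have h1 : ∀ q, ‖(Φ D p ∘L repL D p q⁻¹) η‖ₑ ^ 2 = ∑ b, ∫⁻ x in X.U b, ENNReal.ofReal
      (X.φ b (q.out • x) ^ 2 * nsq X.g (q.out • x) (η.1 (q.out • x))) ∂X.μ := fun q => by
    change ‖Φ D p (D.rep p q⁻¹ η)‖ₑ ^ 2 = _
    rw [rep_inv_coe, enorm_Φ_sq]
    refine Finset.sum_congr rfl fun b _ => (nrm_cutF (cut₁ b) (FD.bot X)).trans ?_
    simp only [Op.pre_val, FD.trOp_T, X.nsq_tr, inv_inv, inv_one, one_smul, X.inv, ofPred_mem_eq]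
  simp only [h1]
  rw [Summable.tsum_finsetSum fun _ _ => ENNReal.summable, FD.P.enorm_coe_sq, FD.nrm]
  have h2 : ∀ b, Measurable fun x => ENNReal.ofReal (X.φ b x ^ 2 * nsq X.g x (η.1 x)) := fun b => by
    simpa only [nsq_rsmul] using
      FD.measurable_nsq (X := X) fun x => (η.smooth x).fun_smul (X.smooth b x)
  rw [← funext fun b => D.lintegral_V b
    (f := fun x => ENNReal.ofReal (X.φ b x ^ 2 * nsq X.g x (η.1 x)))
    (fun γ hγ x => by rw [η.inv.nsq hγ, X.inv]) fun x hx => by simp [Geo.φ_eq_zero hx],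
    ← lintegral_finsetSum _ fun b _ => h2 b]
  refine lintegral_congr fun x => ?_
  rw [← ENNReal.ofReal_sum_of_nonneg fun _ _ => mul_nonneg (sq_nonneg _) (nsq_nonneg _ _ _),
    ← Finset.sum_mul, X.sum_sq, one_mul]

lemma near {a : ℝ} (ha : 0 ≤ a) (k : X.K p) :
    ‖(wOp D m a p).clm (adjoint (Φ D p) k)‖ ≤ X.m * Real.exp a * ‖k‖ := by
  rw [adjoint_Φ, map_sum]
  refine (norm_sum_le _ _).trans ((Finset.sum_le_sum (g := fun _ => Real.exp a * ‖k‖)
    fun b _ => ?_).trans (le_of_eq (by simp [mul_assoc])))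
  refine le_trans ?_ (mul_le_mul_of_nonneg_left (PiLp.norm_apply_le k b) (Real.exp_pos a).le)
  refine compl_le (T := (wOp D m a p).clm ∘L (cutOp (cut₁ b) 1 (FD.bot X) D p).clm)
    (T' := ContinuousLinearMap.id ℂ _) (fun η => ?_) _
  refine norm_le_of_enorm_sq (Real.exp_pos a).le ?_
  simp only [comp_apply, Op.clm_coe, id_apply, FD.P.enorm_coe_sq]
  refine (FD.nrm_mono (ξ := cutF X D.N b (X.φ b) 1 η.1) (sq_nonneg _) fun x => ?_).trans
    (mul_le_mul_right (by simpa using (cutOp (cut₁ b) 1 (FD.bot X) D p).bound η) _)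
  simp only [Op.pre_val, wOp_T, cutOp_T, nsq_rsmul]
  by_cases h : ∀ γ ∈ D.N, γ • x ∉ {x : M | (1 : G)⁻¹ • x ∈ X.U b}
  · simp [cutF_off (cut₁ b) h]
  push Not at h
  obtain ⟨γ, hγ, hx⟩ := h
  have h1 : X.idx b x = γ⁻¹ := Geo.idx_eq (by simpa using hx)
  have h2 := (abs_le.1 (wt_sub D m (a := b) (x := x) ⟨γ⁻¹, by simpa using hx⟩)).2
  rw [lenx, h1, len_of_mem m (D.N.inv_mem hγ)] at h2
  refine mul_le_mul_of_nonneg_right (pow_le_pow_left₀ (Real.exp_pos _).le
    (Real.exp_le_exp.2 (mul_le_of_le_one_right ha (by simpa using h2))) 2) (nsq_nonneg _ _ _)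

lemma far {a : ℝ} (ha : 0 ≤ a) {q : G ⧸ D.N} (hq : q ∉ QuotientGroup.mk '' (X.S : Set G) ^ m)
    (u : D.H p) :
    ‖Φ D p (D.rep p q⁻¹ u)‖ ≤ X.m * Real.exp (a * (1 - m)) * ‖(wOp D m a p).clm u‖ := by
  refine compl_le (T := Φ D p ∘L repL D p q⁻¹) (fun η => ?_) u
  refine norm_le_of_enorm_sq (by positivity) ?_
  change ‖Φ D p (D.rep p q⁻¹ η)‖ₑ ^ 2 ≤ _
  rw [rep_inv_coe, enorm_Φ_sq, Op.clm_coe, FD.P.enorm_coe_sq,
    ← D.nrm_tr ((wOp D m a p).pre η).inv q.out⁻¹]
  refine (Finset.sum_le_sum fun b _ => nrm_cutF_le (cut₁ b) D (FD.bot X)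
    (((wOp D m a p).pre η).inv.tr q.out⁻¹) (sq_nonneg (Real.exp (a * (1 - m)))) fun x hx => ?_).trans
    ?_
  · simp only [Op.pre_val, FD.trOp_T, X.nsq_tr, inv_inv, wOp_T]
    have hx' : q.out⁻¹ • q.out • x ∈ X.U b := by simpa using hx
    have h2 := (abs_le.1 (wt_sub D m (a := b) ⟨_, hx'⟩)).1
    have h3 : (m : ℝ) ≤ lenx D m b (q.out • x) := by
      rw [lenx, Geo.idx_eq hx']
      exact_mod_cast le_len m (Finset.mem_coe.2 X.one_mem) (Nat.le_succ m)
        (by rwa [QuotientGroup.out_eq'])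
    rw [show a * (1 - m) = -(a * (m - 1)) by ring]
    exact nsq_le_w D m ha (by linarith) _
  · rw [Finset.sum_const, Finset.card_univ, Fintype.card_fin, nsmul_eq_mul, ← mul_assoc,
      ← ENNReal.ofReal_natCast, ← ENNReal.ofReal_mul (Nat.cast_nonneg _), mul_pow]
    gcongr
    exact_mod_cast Nat.le_self_pow two_ne_zero X.m

variable (X) in
/-- The constant of the localization. -/
def cL : ℝ := X.m * (1 + 2 * κ X)

omit [BorelSpace M] [Countable G] in
lemma le_cL : (X.m : ℝ) ≤ cL X :=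
  le_mul_of_one_le_right (Nat.cast_nonneg _) (by linarith [κ_nonneg (X := X)])

omit [BorelSpace M] [Countable G] in
lemma le_cL' : (X.m : ℝ) * (2 * κ X) ≤ cL X :=
  mul_le_mul_of_nonneg_left (by linarith) (Nat.cast_nonneg _)

/-- The localization data. -/
def locD : D.cx.Loc QuotientGroup.mk X.S X.K (cL X) where
  Φ := Φ D
  W a m p := (wOp D m a p).clm
  Y a m p := (yOp D m a p).clm
  parseval _ := parseval D
  sa _ _ _ := mulOp_sa _ _ _ _ _ _ _
  Y_le a ha m p := (yOp D m a p).norm_clm_le.trans (by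
    rw [abs_of_nonneg ha]
    exact (le_of_eq (by ring)).trans (mul_le_mul_of_nonneg_right (le_cL' (X := X)) ha))
  graph a m _ _ _ h := w_graph D m a h
  near a ha m _ k := (near D m ha k).trans (mul_le_mul_of_nonneg_right
    (mul_le_mul_of_nonneg_right le_cL (Real.exp_pos _).le) (norm_nonneg _))
  far a ha m _ _ u hq := (far D m ha hq u).trans (mul_le_mul_of_nonneg_right
    (mul_le_mul_of_nonneg_right le_cL (Real.exp_pos _).le) (norm_nonneg _))

end Pool.Agent.MP_d9582c_gt.H63
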